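import Pool.Agent.Lib_helper53.LE.Defs
import Pool.Agent.Lib_helper31.LK.HC

/-!
# LSP3, part G: from the quadratic form of a smooth twist to its main terms. Definitions.

`T = N ^ ν`; `Y = q √N` is the centre of the functional equation; the smooth twist is
`xv χ i Y A e = χ(e) V i (e / Y)` for `e ≤ A`.
-/

set_option autoImplicit false

namespace Pool.Agent.LG

open Complex MeasureTheory Set
open Pool.Agent.LSP (tau GG)
open Pool.Agent.LSPO (KK)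
open Pool.Agent.LK (V HH)
open Pool.Agent.LE (xv H2)

/-- the ranges of the parameters -/
structure Par (ν : ℝ) (N q : ℕ) (Y : ℝ) (A : ℕ) : Prop where
  q_le : (q : ℝ) ≤ (N : ℝ) ^ (ν / 100)
  Y_eq : Y = q * Real.sqrt N
  A_ge : Y * (N : ℝ) ^ (ν / 100) ≤ A
  A_le : (A : ℝ) ≤ Y * (N : ℝ) ^ (ν / 50)

/-- a Lipschitz cut at `R` -/
noncomputable def up (R y : ℝ) : ℝ := max 0 (min 1 (2 - y / R))

/-- the function of one variable to which the theorem on divisor sums is applied -/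
noncomputable def fa (i : ℕ) (ρ : ℝ → ℝ) (ν : ℝ) (N : ℕ) (Y : ℝ) (j b : ℕ) (g : ℤ) (a : ℝ) : ℝ :=
  if 0 < a then V i (j * a / Y) * up ((N : ℝ) ^ (ν / 50)) (j * a / Y) / a *
    KK (GG ρ) ((N : ℝ) ^ (-(60 * ν))) (g * N / (a * b)) else 0

/-- the pairs for which the off-diagonal sum can be nonzero -/
def Sm (ν : ℝ) (N : ℕ) (Y : ℝ) (j b : ℕ) (g : ℤ) : Prop :=
  (j : ℝ) * |(g : ℝ)| * N < 2 * (N : ℝ) ^ (ν / 50) * (b * Y * (1 + ((N : ℝ) ^ ν) ^ 2))

variable {q : ℕ} [NeZero q]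

/-- the off-diagonal sum -/
noncomputable def Sa (χ : DirichletCharacter ℂ q) (i : ℕ) (ρ : ℝ → ℝ) (N : ℕ) (Y : ℝ) (A E : ℕ)
    (j b : ℕ) (g : ℤ) : ℝ :=
  ∑ a ∈ Finset.Icc 1 E, xv χ i Y A (j * a) / a *
    (tau (((a * b : ℕ) : ℤ) - g * N).natAbs * GG ρ ((g : ℝ) * N / ((a * b : ℕ) : ℝ)))

/-- the main term of the divisor function in an arithmetic progression -/
noncomputable def MD (χ : DirichletCharacter ℂ q) (N b : ℕ) (g : ℤ) (y : ℝ) : ℂ :=
  χ N / q * ∑ k ∈ b.divisors.filter (fun k : ℕ => (k : ℤ) ∣ g),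
    χ ((g / (k : ℤ) : ℤ)) * (starRingEnd ℂ) (χ ((b / k : ℕ))) *
    ∑ l ∈ (b / k).divisors, (ArithmeticFunction.moebius l : ℂ) / l *
      ((y + 2 * Real.eulerMascheroniConstant - 2 * Real.log (q * k * l) : ℝ) : ℂ)

/-- the functional of the unit vector `e` -/
noncomputable def Ai (χ : DirichletCharacter ℂ q) (i N e : ℕ) (Y : ℝ) : ℂ :=
  1 / (i.factorial : ℂ) * iteratedDeriv i (HH χ N e Y) 0

/-- the main term as an integral over three circles -/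
noncomputable def J3 (χ : DirichletCharacter ℂ q) (P : Measure (ℕ → ℝ)) (I : Finset ℕ) (K : ℕ)
    (B : ℕ → ℝ) (i i' N : ℕ) (Y r r' : ℝ) : ℂ :=
  (2 * Real.pi * Complex.I)⁻¹ * ∮ s in C(0, r), (s ^ (i + 1))⁻¹ *
    ((((Y / (2 * Real.pi) : ℝ) : ℂ) ^ s) * Complex.Gamma (1 + s) *
    ((2 * Real.pi * Complex.I)⁻¹ * ∮ w in C(0, r), (w ^ 2)⁻¹ *
      ((((N : ℝ) / (4 * Real.pi ^ 2) : ℝ) : ℂ) ^ w *
        DirichletCharacter.LFunction χ (1 + s + w) ^ 2 *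
        (1 / (2 * Real.pi * Complex.I) * ∮ z in C(0, r'), H2 χ P I K B Y w s z /
          (z ^ (i' + 1) * (z + s))))))

end Pool.Agent.LG
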